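import Pool.Agent.Lib.helper18.Iso3

set_option autoImplicit false

open Finset MeasureTheory Real H18Iso

namespace Pool.Agent.Results.MP_42a974_an.Broken

open Classical in
/-- Logarithmic energy `∬ log (1/|x-y|) = ∬ log (2/|x-y|) - log 2` of a probability measure carried by
a set of diameter at most 2 (there `log (2/|x-y|) ≥ 0`; the kernel is `+∞` on the diagonal). -/
noncomputable def energy {n : ℕ} (μ : Measure (EuclideanSpace ℝ (Fin n))) : EReal :=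
  ((∫⁻ x, ∫⁻ y, (if x = y then ⊤ else ENNReal.ofReal (Real.log (2 / ‖x - y‖))) ∂μ ∂μ : ENNReal) :
    EReal) - (Real.log 2 : ℝ)

/-- Logarithmic capacity of a set of diameter at most 2. -/
noncomputable def cap {n : ℕ} (K : Set (EuclideanSpace ℝ (Fin n))) : ENNReal :=
  EReal.exp (-⨅ (μ : Measure (EuclideanSpace ℝ (Fin n)))
    (_ : IsProbabilityMeasure μ ∧ μ Kᶜ = 0), energy μ)

def isq (n : ℕ) : ℕ := min ((fun g => (g + n / g) / 2)^[60] (n + 1)) ((fun g => (g + n / g) / 2)^[61] (n + 1))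

def hh (x y : ℤ × ℤ × ℤ × ℤ) : ℤ := (x.2.1 - y.2.1) ^ 2 + (x.2.2.1 - y.2.2.1) ^ 2

def aa (x y : ℤ × ℤ × ℤ × ℤ) : ℚ :=
  (isq (10000 * ((x.1 + y.1) ^ 2 + hh x y).toNat) + isq (10000 * ((x.1 - y.1) ^ 2 + hh x y).toNat)) / 200000

def rr (x : ℤ × ℤ × ℤ × ℤ) : ℚ := x.1 / 1000

def ww (x : ℤ × ℤ × ℤ × ℤ) : ℚ := x.2.2.2 / 1000

def HH (x y : ℤ × ℤ × ℤ × ℤ) : ℚ := hh x y / 1000 ^ 2 + rr x ^ 2 + rr y ^ 2

def GQ (d j : ℕ) : ℚ := ∏ i ∈ range j, (4 * i + 2 * d) / (i + 1 : ℚ)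

def Chk (n : ℕ) {m : ℕ} (d : Fin m → ℤ × ℤ × ℤ × ℤ) : Prop :=
  (∀ i, 0 < rr (d i) ∧ 0 ≤ ww (d i)) ∧ ∑ i, ww (d i) = 1 ∧ (∃ i, rr (d i) = 1) ∧
  (∀ i j, HH (d i) (d j) + 2 * (rr (d i) * rr (d j)) ≤ 4 ∧ 0 < aa (d i) (d j) ∧
    aa (d i) (d j) ^ 2 + (rr (d i) * rr (d j) / aa (d i) (d j)) ^ 2 ≤ HH (d i) (d j) ∧
    2 ^ kk (aa (d i) (d j)) * aa (d i) (d j) ≤ 2) ∧
  ∑ j ∈ range 64, GQ 1 (j + 1) / GQ n (j + 1) / (2 * j + 2) * ((j + 5) / 4) ≤ 2 / 3 ∧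
  ∑ i, ∑ j, ww (d i) * ww (d j) * ub (aa (d i) (d j)) <
    (0.6931471803 + ∑ j ∈ range 64, GQ 1 (j + 1) / GQ n (j + 1) / (2 * j + 2)) / 2

def d3 : Fin 10 → ℤ × ℤ × ℤ × ℤ := ![(926, 51, 0, 69), (424, 919, 0, 51), (839, 301, 0, 66),
  (127, 1167, 0, 34), (266, 1063, 0, 43), (721, 533, 0, 62), (30, 1229, 0, 23),
  (1000, -485, 0, 525), (579, 742, 0, 57), (981, -213, 0, 70)]

def d4 : Fin 4 → ℤ × ℤ × ℤ × ℤ := ![(1000, -59, -165, 360), (614, 1092, 98, 259),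
  (614, -198, 1007, 259), (355, -452, -724, 122)]

lemma chk3 : Chk 3 d3 ∧ ∀ i, (d3 i).2.2.1 = 0 := by unfold Chk; decide +kernel

lemma chk4 : Chk 4 d4 := by unfold Chk; decide +kernel

lemma both {n m : ℕ} (hn : n ≠ 0) {d : Fin m → ℤ × ℤ × ℤ × ℤ} (h : Chk n d)
    (c : Fin m → ℝ → EuclideanSpace ℝ (Fin n)) (hc : ∀ i, Continuous (c i))
    (e : ∀ i j θ φ, ‖c i θ - c j φ‖ ^ 2 =
      HH (d i) (d j) - 2 * (rr (d i) * rr (d j)) * cos (θ - φ)) :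
    ∃ K : Set (EuclideanSpace ℝ (Fin n)), IsCompact K ∧ Metric.diam K = 2 ∧
      cap (Metric.closedBall (0 : EuclideanSpace ℝ (Fin n)) 1) < cap K := by
  obtain ⟨h1, h2, ⟨i, hi⟩, h3, h4, h5⟩ := h
  have g : ∀ d j, (GQ d j : ℝ) = G d j := fun d j => by simp [GQ, G]
  obtain ⟨K, k1, k2, k3, μ, k4, k5, k6⟩ := rings c hc (fun i => rr (d i)) (fun i => ww (d i))
    (fun i j => HH (d i) (d j)) (fun i j => aa (d i) (d j)) (fun i j => ub (aa (d i) (d j)))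
    (fun i => by exact_mod_cast (h1 i).1) (fun i => by exact_mod_cast (h1 i).2)
    (by exact_mod_cast h2) e (fun i j => by exact_mod_cast (h3 i j).1)
    (fun i j => by exact_mod_cast (h3 i j).2.1) (fun i j => by exact_mod_cast (h3 i j).2.2.1)
    fun i j => log_le_ub (h3 i j).2.1 (h3 i j).2.2.2
  refine ⟨K, k1, le_antisymm (Metric.diam_le_of_forall_dist_le zero_le_two k2) ?_, ?_⟩
  · refine le_trans ?_ (Metric.dist_le_diam_of_mem k1.isBounded (k3 i).1 (k3 i).2)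
    rw [dist_eq_norm]
    refine (abs_le_of_sq_le_sq' (le_of_eq ?_) (norm_nonneg _)).2
    rw [e]
    simp [HH, hh, hi]
    norm_num
  have h4' := (Rat.cast_le (K := ℝ)).2 h4
  have h5' := (Rat.cast_lt (K := ℝ)).2 h5
  push_cast [g] at h4' h5'
  have p : 0 < (Real.log 2 + ∑ j ∈ range 64, G 1 (j + 1) / G n (j + 1) / (2 * j + 2)) / 2 := by
    unfold G; positivity
  have en : ∀ ν : Measure (EuclideanSpace ℝ (Fin n)), energy ν =
      ((∫⁻ x, ∫⁻ y, k x y ∂ν ∂ν : ENNReal) : EReal) - (Real.log 2 : ℝ) := fun ν => by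
    unfold energy k
    congr!
  rw [cap, cap, EReal.exp_lt_exp_iff, EReal.neg_lt_neg_iff]
  simp only [en]
  refine lt_of_le_of_lt (iInf₂_le μ ⟨k4, k5⟩) (lt_of_lt_of_le (EReal.sub_lt_sub_of_lt_of_le
    (EReal.coe_ennreal_lt_coe_ennreal_iff.2 (k6.trans_lt ((ENNReal.ofReal_lt_ofReal_iff p).2 ?_)))
    le_rfl (by simp) (by simp)) (le_iInf₂ fun ν hν => EReal.sub_le_sub
      (EReal.coe_ennreal_le_coe_ennreal_iff.2 ?_) le_rfl))
  · linarith [Real.log_two_gt_d9]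
  · haveI := hν.1
    exact ball hn 64 h4' ν hν.2

theorem result (n : ℕ) (hn : n = 3 ∨ n = 4) :
    ∃ K : Set (EuclideanSpace ℝ (Fin n)), IsCompact K ∧ Metric.diam K = 2 ∧
      cap (Metric.closedBall (0 : EuclideanSpace ℝ (Fin n)) 1) < cap K := by
  rcases hn with rfl | rfl
  · refine both (by simp) chk3.1 (fun i θ => !₂[rr (d3 i) * cos θ, rr (d3 i) * sin θ,
      (d3 i).2.1 / 1000]) (fun i => by fun_prop) fun i j θ φ => ?_
    rw [EuclideanSpace.real_norm_sq_eq, cos_sub]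
    simp [Fin.sum_univ_succ, HH, hh, chk3.2]
    nlinarith [sin_sq_add_cos_sq θ, sin_sq_add_cos_sq φ]
  · refine both (by simp) chk4 (fun i θ => !₂[rr (d4 i) * cos θ, rr (d4 i) * sin θ,
      (d4 i).2.1 / 1000, (d4 i).2.2.1 / 1000]) (fun i => by fun_prop) fun i j θ φ => ?_
    rw [EuclideanSpace.real_norm_sq_eq, cos_sub]
    simp [Fin.sum_univ_succ, HH, hh]
    nlinarith [sin_sq_add_cos_sq θ, sin_sq_add_cos_sq φ]

end Pool.Agent.Results.MP_42a974_an.Broken
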